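import Mathlib

set_option autoImplicit false

open Metric Set Filter Topology

namespace Pool.Agent.Work.MP_c2bb60_gt

/-- The midpoint CN inequality. -/
def CN (X : Type*) [MetricSpace X] : Prop :=
  ∀ x y : X, ∃ m : X, ∀ z : X,
    dist z m ^ 2 + dist x y ^ 2 / 4 ≤ (dist z x ^ 2 + dist z y ^ 2) / 2

variable {X : Type*} [MetricSpace X]

/-- `m` is a midpoint of `x` and `y`. -/
def IsMid (x y m : X) : Prop := dist x m = dist x y / 2 ∧ dist m y = dist x y / 2

theorem isMid_self (x : X) : IsMid x x x := by simp [IsMid]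

theorem IsMid.symm {x y m : X} (h : IsMid x y m) : IsMid y x m := by
  refine ⟨?_, ?_⟩
  · rw [dist_comm y m, dist_comm y x]; exact h.2
  · rw [dist_comm m x, dist_comm y x]; exact h.1

theorem exists_mid_cn (h : CN X) (x y : X) : ∃ m, IsMid x y m ∧ ∀ z : X,
    dist z m ^ 2 + dist x y ^ 2 / 4 ≤ (dist z x ^ 2 + dist z y ^ 2) / 2 := by
  obtain ⟨m, hm⟩ := h x y
  have h1 := hm x
  have h2 := hm y
  rw [dist_self] at h1 h2
  rw [dist_comm y x] at h2
  have hd : 0 ≤ dist x y := dist_nonneg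
  have h3 : dist x m ≤ dist x y / 2 := by
    apply le_of_sq_le_sq _ (by linarith); nlinarith
  have h4 : dist y m ≤ dist x y / 2 := by
    apply le_of_sq_le_sq _ (by linarith); nlinarith
  have h5 := dist_triangle x m y
  rw [dist_comm y m] at h4
  exact ⟨m, ⟨by linarith, by linarith⟩, hm⟩

theorem exists_mid (h : CN X) (x y : X) : ∃ m, IsMid x y m :=
  let ⟨m, hm, _⟩ := exists_mid_cn h x y
  ⟨m, hm⟩

theorem mid_unique_aux (h : CN X) {x y m m' : X} (hm' : IsMid x y m')
    (hm : ∀ z : X, dist z m ^ 2 + dist x y ^ 2 / 4 ≤ (dist z x ^ 2 + dist z y ^ 2) / 2) :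
    m' = m := by
  have h1 := hm m'
  rw [dist_comm m' x, hm'.1, hm'.2] at h1
  have h2 : dist m' m ^ 2 ≤ 0 := by nlinarith
  have h3 : dist m' m = 0 := by
    have := sq_nonneg (dist m' m)
    have h4 : dist m' m ^ 2 = 0 := le_antisymm h2 this
    exact pow_eq_zero_iff (two_ne_zero) |>.1 h4
  exact dist_eq_zero.1 h3

theorem IsMid.cn (h : CN X) {x y m : X} (hm : IsMid x y m) (z : X) :
    dist z m ^ 2 + dist x y ^ 2 / 4 ≤ (dist z x ^ 2 + dist z y ^ 2) / 2 := by
  obtain ⟨m0, _, hm0⟩ := exists_mid_cn h x y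
  rw [mid_unique_aux h hm hm0]
  exact hm0 z

theorem mid_unique (h : CN X) {x y m m' : X} (hm : IsMid x y m) (hm' : IsMid x y m') : m = m' :=
  mid_unique_aux h hm (fun z => hm'.cn h z)

theorem dist_mid_right (h : CN X) {x y z m m' : X} (hm : IsMid x y m) (hm' : IsMid x z m') :
    dist m m' ≤ dist y z / 2 := by
  have h1 := hm'.cn h m
  have h2 := hm.cn h z
  rw [dist_comm m x, hm.1] at h1
  rw [dist_comm z m, dist_comm z x, dist_comm z y] at h2
  have hd : 0 ≤ dist y z := dist_nonneg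
  apply le_of_sq_le_sq _ (by linarith)
  nlinarith

theorem dist_mid_mid (h : CN X) {x y a b m m' : X} (hm : IsMid x y m) (hm' : IsMid a b m') :
    dist m m' ≤ (dist x a + dist y b) / 2 := by
  obtain ⟨n, hn⟩ := exists_mid h x b
  have h1 := dist_mid_right h hm hn
  have h2 := dist_mid_right h hn.symm hm'.symm
  have := dist_triangle m n m'
  linarith

/-- Midpoint-closed sets. -/
def MidClosed (C : Set X) : Prop := ∀ a ∈ C, ∀ b ∈ C, ∀ m, IsMid a b m → m ∈ C

theorem midClosed_univ : MidClosed (univ : Set X) := fun _ _ _ _ _ _ => mem_univ _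

/-- `p` is the point at ratio `t` between `x` and `y`. -/
def IsPt (x y : X) (t : ℝ) (p : X) : Prop :=
  dist x p = t * dist x y ∧ dist p y = (1 - t) * dist x y

theorem dist_pt_sq_le (h : CN X) {x y p q : X} {t s : ℝ} (ht : 0 ≤ t) (hts : t ≤ s) (hs : s ≤ 1)
    (hp : IsPt x y t p) (hq : IsPt x y s q) : dist p q ^ 2 ≤ 4 * (s - t) * dist x y ^ 2 := by
  obtain ⟨m, hm⟩ := exists_mid h p q
  have h1 := hm.cn h x
  have h2 := hm.cn h y
  have h3 := dist_triangle x m y
  have hd : 0 ≤ dist x y := dist_nonneg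
  rw [dist_comm y p, dist_comm y q, dist_comm y m] at h2
  rw [hp.1, hq.1] at h1
  rw [hp.2, hq.2] at h2
  -- `b ≤ (1 - t) d`
  have hb : dist m y ≤ (1 - t) * dist x y := by
    apply le_of_sq_le_sq _ (by nlinarith)
    nlinarith [sq_nonneg (dist p q), mul_nonneg (sub_nonneg.2 hts) hd,
      mul_nonneg (mul_nonneg (sub_nonneg.2 hts) (sq_nonneg (dist x y)))
        (by linarith : 0 ≤ 2 - t - s)]
  have ha : t * dist x y ≤ dist x m := by nlinarith
  have ha2 : (t * dist x y) ^ 2 ≤ dist x m ^ 2 := by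
    apply pow_le_pow_left₀ (by positivity) ha
  nlinarith [mul_nonneg (mul_nonneg (sub_nonneg.2 hts) (sq_nonneg (dist x y)))
        (by linarith : 0 ≤ 2 - t - s)]

theorem pt_unique (h : CN X) {x y p q : X} {t : ℝ} (ht : 0 ≤ t) (ht1 : t ≤ 1)
    (hp : IsPt x y t p) (hq : IsPt x y t q) : p = q := by
  have := dist_pt_sq_le h ht le_rfl ht1 hp hq
  rw [sub_self, mul_zero, zero_mul] at this
  have h4 : dist p q ^ 2 = 0 := le_antisymm this (sq_nonneg _)
  exact dist_eq_zero.1 (pow_eq_zero_iff (two_ne_zero) |>.1 h4)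

theorem pt_half_left (x y p q : X) {t : ℝ} (hp : IsPt x y t p) (hq : IsMid x p q) :
    IsPt x y (t / 2) q := by
  have h1 : dist x q = t / 2 * dist x y := by rw [hq.1, hp.1]; ring
  refine ⟨h1, ?_⟩
  have h2 := dist_triangle q p y
  have h3 := dist_triangle x q y
  rw [hq.2, hp.1, hp.2] at h2
  linarith

theorem pt_half_right (x y p q : X) {t : ℝ} (hp : IsPt x y t p) (hq : IsMid p y q) :
    IsPt x y ((1 + t) / 2) q := by
  have h1 : dist q y = (1 - (1 + t) / 2) * dist x y := by rw [hq.2, hp.2]; ring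
  refine ⟨?_, h1⟩
  have h2 := dist_triangle x p q
  have h3 := dist_triangle x q y
  rw [hq.1, hp.1, hp.2] at h2
  linarith

theorem exists_pt_dyadic (h : CN X) {C : Set X} (hC : MidClosed C) {x y : X} (hx : x ∈ C)
    (hy : y ∈ C) : ∀ n k : ℕ, k ≤ 2 ^ n → ∃ p ∈ C, IsPt x y ((k : ℝ) / 2 ^ n) p := by
  intro n
  induction n with
  | zero =>
    intro k hk
    interval_cases k
    · exact ⟨x, hx, by simp [IsPt]⟩
    · exact ⟨y, hy, by simp [IsPt]⟩
  | succ n ih =>
    intro k hk
    rcases le_total k (2 ^ n) with hk' | hk'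
    · obtain ⟨p, hp, hpt⟩ := ih k hk'
      obtain ⟨q, hq⟩ := exists_mid h x p
      refine ⟨q, hC _ hx _ hp _ hq, ?_⟩
      have := pt_half_left x y p q hpt hq
      convert! this using 1
      rw [pow_succ]; field_simp
    · obtain ⟨p, hp, hpt⟩ := ih (k - 2 ^ n) (by rw [pow_succ] at hk; omega)
      obtain ⟨q, hq⟩ := exists_mid h p y
      refine ⟨q, hC _ hp _ hy _ hq, ?_⟩
      have := pt_half_right x y p q hpt hq
      convert! this using 1
      rw [Nat.cast_sub hk']
      push_cast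
      rw [pow_succ]; field_simp; ring

theorem exists_pt_mem [CompleteSpace X] (h : CN X) {C : Set X} (hCc : IsClosed C)
    (hC : MidClosed C) {x y : X} (hx : x ∈ C) (hy : y ∈ C) {t : ℝ} (ht : 0 ≤ t) (ht1 : t ≤ 1) :
    ∃ p ∈ C, IsPt x y t p := by
  -- dyadic approximations from below
  have hk : ∀ n : ℕ, ⌊(2:ℝ) ^ n * t⌋₊ ≤ 2 ^ n := by
    intro n
    have : (⌊(2:ℝ) ^ n * t⌋₊ : ℝ) ≤ 2 ^ n := by
      refine (Nat.floor_le (by positivity)).trans ?_
      have : (2:ℝ) ^ n * t ≤ 2 ^ n * 1 := by gcongr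
      simpa using this
    exact_mod_cast this
  choose p hpC hp using fun n => exists_pt_dyadic h hC hx hy n _ (hk n)
  set a : ℕ → ℝ := fun n => (⌊(2:ℝ) ^ n * t⌋₊ : ℝ) / 2 ^ n with ha
  have ha0 : ∀ n, 0 ≤ a n := fun n => by positivity
  have hat : ∀ n, a n ≤ t := by
    intro n
    rw [ha]
    simp only
    rw [div_le_iff₀ (by positivity), mul_comm]
    exact Nat.floor_le (by positivity)
  have hat' : ∀ n, t - a n ≤ 1 / 2 ^ n := by
    intro n
    have := Nat.lt_floor_add_one ((2:ℝ) ^ n * t)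
    rw [ha]
    simp only
    rw [sub_le_iff_le_add, ← add_div, le_div_iff₀ (by positivity)]
    linarith
  have hlim0 : Tendsto (fun n : ℕ => (1:ℝ) / 2 ^ n) atTop (𝓝 0) := by
    have := tendsto_pow_atTop_nhds_zero_of_lt_one (r := (1/2 : ℝ)) (by norm_num) (by norm_num)
    refine this.congr (fun n => ?_)
    rw [div_pow, one_pow]
  have halim : Tendsto a atTop (𝓝 t) := by
    have h1 : Tendsto (fun n : ℕ => t - (1:ℝ) / 2 ^ n) atTop (𝓝 t) := by
      simpa using tendsto_const_nhds.sub hlim0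
    exact tendsto_of_tendsto_of_tendsto_of_le_of_le h1 tendsto_const_nhds
      (fun n => by have := hat' n; simp only; linarith) hat
  have hcauchy : CauchySeq p := by
    rw [Metric.cauchySeq_iff']
    intro ε hε
    have hev : ∀ᶠ n : ℕ in atTop, 4 * (1 / 2 ^ n) * dist x y ^ 2 < ε ^ 2 := by
      have : Tendsto (fun n : ℕ => 4 * ((1:ℝ) / 2 ^ n) * dist x y ^ 2) atTop (𝓝 0) := by
        have := (hlim0.const_mul 4).mul_const (dist x y ^ 2)
        simpa using this
      exact this.eventually_lt_const (by positivity)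
    obtain ⟨N, hN⟩ := hev.exists_forall_of_atTop
    refine ⟨N, fun n hn => ?_⟩
    have h0 := hN N le_rfl
    have key : ∀ i j, a i ≤ a j → a j ≤ t → t - a i ≤ 1 / 2 ^ N → dist (p i) (p j) < ε := by
      intro i j hij hjt hi
      have h1 := dist_pt_sq_le h (ha0 i) hij (hjt.trans ht1) (hp i) (hp j)
      have h2 : dist (p i) (p j) ^ 2 < ε ^ 2 := by
        refine lt_of_le_of_lt h1 (lt_of_le_of_lt ?_ h0)
        have : a j - a i ≤ 1 / 2 ^ N := by linarith
        gcongr
      exact lt_of_pow_lt_pow_left₀ 2 hε.le h2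
    have hmono : (1:ℝ) / 2 ^ n ≤ 1 / 2 ^ N := by
      apply one_div_le_one_div_of_le (by positivity)
      exact pow_le_pow_right₀ (by norm_num) hn
    rcases le_total (a n) (a N) with hc | hc
    · exact key n N hc (hat N) ((hat' n).trans hmono)
    · rw [dist_comm]; exact key N n hc (hat n) (hat' N)
  obtain ⟨q, hq⟩ := cauchySeq_tendsto_of_complete hcauchy
  refine ⟨q, hCc.mem_of_tendsto hq (Eventually.of_forall hpC), ?_, ?_⟩
  · have h1 : Tendsto (fun n => dist x (p n)) atTop (𝓝 (dist x q)) := tendsto_const_nhds.dist hq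
    have h2 : Tendsto (fun n => dist x (p n)) atTop (𝓝 (t * dist x y)) := by
      simp only [(hp _).1]
      exact halim.mul_const _
    exact tendsto_nhds_unique h1 h2
  · have h1 : Tendsto (fun n => dist (p n) y) atTop (𝓝 (dist q y)) := hq.dist tendsto_const_nhds
    have h2 : Tendsto (fun n => dist (p n) y) atTop (𝓝 ((1 - t) * dist x y)) := by
      simp only [(hp _).2]
      exact (tendsto_const_nhds.sub halim).mul_const _
    exact tendsto_nhds_unique h1 h2

theorem mem_of_pt [CompleteSpace X] (h : CN X) {C : Set X} (hCc : IsClosed C)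
    (hC : MidClosed C) {x y p : X} (hx : x ∈ C) (hy : y ∈ C) {t : ℝ} (ht : 0 ≤ t) (ht1 : t ≤ 1)
    (hp : IsPt x y t p) : p ∈ C := by
  obtain ⟨q, hq, hq'⟩ := exists_pt_mem h hCc hC hx hy ht ht1
  rw [pt_unique h ht ht1 hp hq']
  exact hq

theorem exists_pt [CompleteSpace X] (h : CN X) (x y : X) {t : ℝ} (ht : 0 ≤ t) (ht1 : t ≤ 1) :
    ∃ p, IsPt x y t p :=
  let ⟨p, _, hp⟩ := exists_pt_mem h isClosed_univ midClosed_univ (mem_univ x) (mem_univ y) ht ht1
  ⟨p, hp⟩

theorem mem_of_between [CompleteSpace X] (h : CN X) {C : Set X} (hCc : IsClosed C)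
    (hC : MidClosed C) {a b m : X} (ha : a ∈ C) (hb : b ∈ C)
    (hm : dist a m + dist m b = dist a b) : m ∈ C := by
  rcases eq_or_lt_of_le (dist_nonneg (x := a) (y := b)) with h0 | h0
  · have h1 : dist a m = 0 := by
      have := dist_nonneg (x := a) (y := m)
      have := dist_nonneg (x := m) (y := b)
      linarith
    rw [← dist_eq_zero.1 h1]
    exact ha
  · refine mem_of_pt h hCc hC ha hb (t := dist a m / dist a b) (by positivity) ?_ ⟨?_, ?_⟩
    · rw [div_le_one h0]
      have := dist_nonneg (x := m) (y := b)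
      linarith
    · field_simp
    · field_simp
      linarith

theorem dist_pt_pt [CompleteSpace X] (h : CN X) {x y p q : X} {t s : ℝ} (ht : 0 ≤ t)
    (hts : t ≤ s) (hs : s ≤ 1) (hp : IsPt x y t p) (hq : IsPt x y s q) :
    dist p q = (s - t) * dist x y := by
  rcases eq_or_lt_of_le (ht.trans hts) with h0 | h0
  · have ht0 : t = 0 := by linarith
    have hs0 : s = 0 := h0.symm
    subst ht0; subst hs0
    rw [pt_unique h le_rfl (by linarith) hp hq]
    simp
  · obtain ⟨p', hp'⟩ := exists_pt h x q (t := t / s) (by positivity) (by rwa [div_le_one h0])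
    have h1 : dist x p' = t * dist x y := by
      rw [hp'.1, hq.1]; field_simp
    have h2 : dist p' q = (s - t) * dist x y := by
      rw [hp'.2, hq.1]; field_simp
    have h3 : dist p' y = (1 - t) * dist x y := by
      have := dist_triangle p' q y
      have := dist_triangle x p' y
      rw [hq.2] at *
      linarith
    rw [pt_unique h ht (hts.trans hs) hp ⟨h1, h3⟩]
    exact h2

/-- Crossing a sphere along a segment. -/
theorem exists_crossing [CompleteSpace X] (h : CN X) {v y m : X} {s : ℝ} (hy : s ≤ dist v y)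
    (hm : dist v m ≤ s) : ∃ p, ∃ t, 0 ≤ t ∧ t ≤ 1 ∧ IsPt y m t p ∧ dist v p = s := by
  classical
  have hex : ∀ t : Icc (0:ℝ) 1, ∃ p, IsPt y m t p := fun t => exists_pt h y m t.2.1 t.2.2
  choose γ hγ using hex
  have hcont : Continuous γ := by
    have : LipschitzWith (Real.toNNReal (dist y m)) γ := by
      apply LipschitzWith.of_dist_le_mul
      intro a b
      rw [Real.coe_toNNReal _ dist_nonneg]
      rcases le_total (a : ℝ) b with hab | hab
      · rw [dist_pt_pt h a.2.1 hab b.2.2 (hγ a) (hγ b), Subtype.dist_eq, Real.dist_eq,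
          abs_of_nonpos (by linarith), mul_comm]
        apply le_of_eq; ring
      · rw [dist_comm, dist_pt_pt h b.2.1 hab a.2.2 (hγ b) (hγ a), Subtype.dist_eq, Real.dist_eq,
          abs_of_nonneg (by linarith), mul_comm]
    exact this.continuous
  have h0 : γ ⟨0, by simp⟩ = y := by
    have := (hγ ⟨0, by simp⟩).1
    simp only [zero_mul] at this
    exact (dist_eq_zero.1 this).symm
  have h1 : γ ⟨1, by simp⟩ = m := by
    have := (hγ ⟨1, by simp⟩).2
    simp only [sub_self, zero_mul] at this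
    exact dist_eq_zero.1 this
  have hcd : Continuous (fun t => dist v (γ t)) := continuous_const.dist hcont
  have := intermediate_value_univ (⟨1, by simp⟩ : Icc (0:ℝ) 1) ⟨0, by simp⟩ hcd
  rw [h0, h1] at this
  obtain ⟨t, ht⟩ := this ⟨hm, hy⟩
  exact ⟨γ t, t, t.2.1, t.2.2, hγ t, ht⟩

end Pool.Agent.Work.MP_c2bb60_gt
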