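import Pool.Agent.Work.MP_c2bb60_gt.Final

set_option autoImplicit false

open Metric Set Filter Topology

namespace Pool.Agent.Work.MP_c2bb60_gt

variable {X : Type*} [MetricSpace X]

/-- The closed ball of radius `s` about `v` is conical at `v`. -/
def Conical (v : X) (s : ℝ) : Prop :=
  ∀ y z m n : X, dist v y ≤ s → dist v z ≤ s → IsMid v y m → IsMid v z n →
    dist m n = dist y z / 2

/-- Twice the inner product based at `v`. -/
noncomputable def ip (v w k : X) : ℝ := dist v w ^ 2 + dist v k ^ 2 - dist w k ^ 2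

theorem ip_half (h : CN X) {v : X} {s : ℝ} (hc : Conical v s) {w k k' : X} (hw : dist v w ≤ s)
    (hk : dist v k ≤ s) (hk' : IsMid v k k') : ip v w k' = ip v w k / 2 := by
  obtain ⟨W, hW⟩ := exists_mid h v w
  have h1 := hc w k W k' hw hk hW hk'
  have h2 := hW.cn h k'
  have h3 := hk'.cn h w
  have h4 := hk'.1
  rw [dist_comm k' W, h1, dist_comm k' v, dist_comm k' w, h4] at h2
  rw [dist_comm w v] at h3
  unfold ip
  rw [h4]
  nlinarith

theorem mid_half (h : CN X) {v : X} {s : ℝ} (hc : Conical v s) {a b m a' b' m' : X}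
    (ha : dist v a ≤ s) (hb : dist v b ≤ s) (hms : dist v m ≤ s) (hm : IsMid a b m)
    (ha' : IsMid v a a') (hb' : IsMid v b b') (hm' : IsMid v m m') : IsMid a' b' m' := by
  have h1 := hc a b a' b' ha hb ha' hb'
  have h2 := hc a m a' m' ha hms ha' hm'
  have h3 := hc m b m' b' hms hb hm' hb'
  refine ⟨?_, ?_⟩
  · rw [h2, h1, hm.1]
  · rw [h3, h1, hm.2]

theorem ip_concave_aux (h : CN X) {v : X} {s : ℝ} (hc : Conical v s) {w : X}
    (hw : dist v w ≤ s) (n : ℕ) : ∀ a b m : X, dist v a ≤ s → dist v b ≤ s → IsMid a b m →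
    (ip v w a + ip v w b) / 2 - (1 / 2) ^ n * ((dist v a ^ 2 + dist v b ^ 2) / 2
      - dist a b ^ 2 / 4 - dist v m ^ 2) ≤ ip v w m := by
  induction n with
  | zero =>
    intro a b m _ _ hm
    have h1 := hm.cn h w
    unfold ip
    simp only [pow_zero, one_mul]
    linarith
  | succ n ih =>
    intro a b m ha hb hm
    have hms : dist v m ≤ s := by
      have := midClosed_closedBall h v s a (by rwa [mem_closedBall, dist_comm]) b
        (by rwa [mem_closedBall, dist_comm]) m hm
      rwa [mem_closedBall, dist_comm] at this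
    obtain ⟨a', ha'⟩ := exists_mid h v a
    obtain ⟨b', hb'⟩ := exists_mid h v b
    obtain ⟨m', hm'⟩ := exists_mid h v m
    have h0 : 0 ≤ dist v a := dist_nonneg
    have h0' : 0 ≤ dist v b := dist_nonneg
    have h1 := ih a' b' m' (by rw [ha'.1]; linarith) (by rw [hb'.1]; linarith)
      (mid_half h hc ha hb hms hm ha' hb' hm')
    rw [ip_half h hc hw ha ha', ip_half h hc hw hb hb', ip_half h hc hw hms hm',
      hc a b a' b' ha hb ha' hb', ha'.1, hb'.1, hm'.1] at h1
    rw [pow_succ]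
    linarith

theorem ip_concave (h : CN X) {v : X} {s : ℝ} (hc : Conical v s) {w : X}
    (hw : dist v w ≤ s) {a b m : X} (ha : dist v a ≤ s) (hb : dist v b ≤ s) (hm : IsMid a b m) :
    (ip v w a + ip v w b) / 2 ≤ ip v w m := by
  set c : ℝ := (dist v a ^ 2 + dist v b ^ 2) / 2 - dist a b ^ 2 / 4 - dist v m ^ 2 with hcdef
  have h1 : Tendsto (fun n : ℕ => (ip v w a + ip v w b) / 2 - (1 / 2 : ℝ) ^ n * c) atTop
      (𝓝 ((ip v w a + ip v w b) / 2 - 0 * c)) :=
    tendsto_const_nhds.sub ((tendsto_pow_atTop_nhds_zero_of_lt_one (by norm_num)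
      (by norm_num)).mul_const c)
  rw [zero_mul, sub_zero] at h1
  exact le_of_tendsto' h1 (fun n => ip_concave_aux h hc hw n a b m ha hb hm)

theorem ip_le (v w x : X) : ip v w x ≤ 2 * (dist v w * dist v x) := by
  have h1 := dist_triangle v x w
  have h2 := dist_triangle v w x
  rw [dist_comm x w] at h1
  unfold ip
  rcases le_total (dist v w) (dist v x) with h3 | h3
  · nlinarith [dist_nonneg (x := w) (y := x)]
  · nlinarith [dist_nonneg (x := w) (y := x)]

/-- The multi-scale conical condition. -/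
def MultiConical (X : Type*) [MetricSpace X] : Prop :=
  ∀ (o : X) (R ε : ℝ), 0 < ε → ∃ σ > 0, ∀ x : X, dist x o ≤ R → ∃ v : X, ∃ s : ℝ,
    σ ≤ s ∧ s ≤ ε ∧ dist x v ≤ ε * s ^ 2 ∧ Conical v s

theorem hypE_of_conical (h : CN X) [CompleteSpace X] (hmc : MultiConical X) {K : Set X}
    (hKc : IsCompact K) (hK : K.Nonempty) : HypE K := by
  obtain ⟨o, ho⟩ := hK
  obtain ⟨D, hD⟩ := hKc.isBounded.subset_closedBall o
  have hDQ : ∀ x ∈ Qs K, dist x o ≤ D := fun x hx =>
    qs_subset isClosed_closedBall (midClosed_closedBall h o D) hD hx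
  intro ε hε
  have hε' : 0 < min (ε / 2) (1 / 2) := lt_min (by positivity) (by norm_num)
  obtain ⟨σ, hσ, hh⟩ := hmc o D _ hε'
  refine ⟨σ, hσ, fun x hx hxK => ?_⟩
  obtain ⟨v, s, hσs, hsε, hxv, hcon⟩ := hh x (hDQ x hx)
  have hs0 : 0 < s := hσ.trans_le hσs
  set e : ℝ := min (ε / 2) (1 / 2) with he
  have he1 : e ≤ ε / 2 := min_le_left _ _
  have he2 : e ≤ 1 / 2 := min_le_right _ _
  have hss : s ^ 2 ≤ s / 2 := by nlinarith
  have hss1 : s ^ 2 ≤ 1 := by nlinarith
  have hxv1 : dist v x < s := by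
    rw [dist_comm]
    nlinarith
  have hxv2 : dist x v ≤ ε / 2 := by nlinarith
  have hKs : ∀ k ∈ K, s ≤ dist v k := fun k hk => by
    have h1 := infDist_le_dist_of_mem (x := x) hk
    have h2 := dist_triangle x v k
    linarith
  refine ⟨v, s, hσs, by linarith, ?_, sphere_nonempty h hKs hx hxv1, ?_⟩
  · refine hxv.trans ?_
    have := mul_le_mul_of_nonneg_right he1 (sq_nonneg s)
    nlinarith [sq_nonneg s]
  · intro w hw hws τ hτ
    obtain ⟨y, hy, hys, hyΨ⟩ := exists_sphere_lt h hKs hx hxv1 (ip v w)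
      (by unfold ip; fun_prop) (fun a b m ha hb hm => ip_concave h hcon hws ha hb hm)
      (c := 2 * (dist v w * dist v x) + τ) (by have := ip_le v w x; linarith)
    refine ⟨y, hy, hys, ?_⟩
    unfold ip at hyΨ
    rw [hys] at hyΨ
    rw [dist_comm y w]
    have h1 : 2 * (dist v w * dist v x) ≤ ε * s ^ 2 * dist v w := by
      have h2 : dist v x ≤ ε / 2 * s ^ 2 := by
        rw [dist_comm]
        exact hxv.trans (mul_le_mul_of_nonneg_right he1 (sq_nonneg s))
      have h3 := mul_le_mul_of_nonneg_left h2 (dist_nonneg (x := v) (y := w))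
      linarith
    linarith

end Pool.Agent.Work.MP_c2bb60_gt
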