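import Pool.Agent.Work.MP_c2bb60_gt.Hull

set_option autoImplicit false

open Metric Set Filter Topology

namespace Pool.Agent.Work.MP_c2bb60_gt

variable {X : Type*} [MetricSpace X]

/-- Distance to the `k`-th level. -/
noncomputable def fL (K : Set X) (k : ℕ) (x : X) : ℝ := infDist x (Lv K k)

theorem fL_succ_le {K : Set X} (hK : K.Nonempty) (k : ℕ) (x : X) : fL K (k + 1) x ≤ fL K k x :=
  infDist_le_infDist_of_subset (lv_succ K k) (lv_nonempty hK k)

theorem fL_mid (h : CN X) {K : Set X} (hK : K.Nonempty) (k : ℕ) {a b m : X} (hm : IsMid a b m) :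
    fL K (k + 1) m ≤ (fL K k a + fL K k b) / 2 := by
  apply le_of_forall_pos_le_add
  intro ε hε
  obtain ⟨a', ha', haa⟩ := (infDist_lt_iff (lv_nonempty hK k)).1
    (lt_add_of_pos_right (infDist a (Lv K k)) hε)
  obtain ⟨b', hb', hbb⟩ := (infDist_lt_iff (lv_nonempty hK k)).1
    (lt_add_of_pos_right (infDist b (Lv K k)) hε)
  obtain ⟨m', hm'⟩ := exists_mid h a' b'
  have h1 : fL K (k + 1) m ≤ dist m m' := infDist_le_dist_of_mem ⟨a', ha', b', hb', hm'⟩
  have h2 := dist_mid_mid h hm hm'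
  unfold fL
  unfold fL at h1
  linarith

theorem fL_lip (K : Set X) (k : ℕ) (x y : X) : fL K k x ≤ fL K k y + dist x y :=
  infDist_le_infDist_add_dist

/-- The penalized function. -/
noncomputable def FL (K : Set X) (o : X) (lam : ℝ) (k : ℕ) (x : X) : ℝ :=
  fL K k x + lam * dist x o ^ 2

theorem FL_succ_le {K : Set X} (hK : K.Nonempty) (o : X) (lam : ℝ) (k : ℕ) (x : X) :
    FL K o lam (k + 1) x ≤ FL K o lam k x := by
  have := fL_succ_le hK k x
  unfold FL
  linarith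

theorem FL_tp (h : CN X) {K : Set X} (hK : K.Nonempty) (o : X) {lam : ℝ} (hlam : 0 ≤ lam)
    (w y : X) (j : ℕ) : ∃ p : X,
    (∀ C : Set X, MidClosed C → w ∈ C → y ∈ C → p ∈ C) ∧
    (∀ z : X, dist z p ^ 2 ≤ (1 - 1 / 2 ^ j) * dist z w ^ 2 + 1 / 2 ^ j * dist z y ^ 2
      - 1 / 2 ^ j * (1 - 1 / 2 ^ j) * dist w y ^ 2) ∧
    (∀ k, FL K o lam (k + j) p ≤ (1 - 1 / 2 ^ j) * FL K o lam k w + 1 / 2 ^ j * FL K o lam k y
      - lam * (1 / 2 ^ j * (1 - 1 / 2 ^ j) * dist w y ^ 2)) := by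
  obtain ⟨p, hpC, hpd, hpF⟩ := exists_tp h w y j
  refine ⟨p, hpC, hpd, fun k => ?_⟩
  have h1 := hpF (fL K) (fun k x => fL_succ_le hK k x) (fun k a b m hm => fL_mid h hK k hm) k
  have h2 := hpd o
  rw [dist_comm o p, dist_comm o w, dist_comm o y] at h2
  have h3 := mul_le_mul_of_nonneg_left h2 hlam
  unfold FL
  nlinarith

/-- Hypothesis (E). -/
def HypE (K : Set X) : Prop :=
  ∀ ε > 0, ∃ σ > 0, ∀ x ∈ Qs K, ε ≤ infDist x K → ∃ v : X, ∃ s : ℝ, σ ≤ s ∧ s ≤ 1 ∧
    dist x v ≤ ε * s ^ 2 ∧ (∃ y ∈ Qs K, dist v y = s) ∧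
    ∀ w ∈ Qs K, dist v w ≤ s → ∀ τ > 0, ∃ y ∈ Qs K, dist v y = s ∧
      dist v w ^ 2 + s ^ 2 - ε * s ^ 2 * dist v w - τ ≤ dist y w ^ 2

/-- One greedy run. -/
theorem greedy (h : CN X) {K : Set X} (hK : K.Nonempty) (o : X) {lam : ℝ} (hlam : 0 ≤ lam)
    {v : X} {s ε t τ : ℝ} (hs0 : 0 < s) (hs1 : s ≤ 1) (hε0 : 0 < ε) (hε1 : ε ≤ 1)
    {j : ℕ} (ht : t = 1 / 2 ^ j) (ht4 : t ≤ 1 / 4) (hτ : τ = t * s ^ 2)
    (hy0 : ∃ y ∈ Qs K, dist v y = s)
    (hE : ∀ w ∈ Qs K, dist v w ≤ s → ∃ y ∈ Qs K, dist v y = s ∧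
      dist v w ^ 2 + s ^ 2 - ε * s ^ 2 * dist v w - τ ≤ dist y w ^ 2)
    {k : ℕ} {c : ℝ} (hc : ∀ x ∈ Qs K, FL K o lam k x ≤ c) (n : ℕ) :
    ∃ w ∈ Qs K, dist v w ≤ s ∧
      dist v w ^ 2 ≤ (1 - t) ^ n * s ^ 2 + (t * s ^ 2 + (ε * s ^ 2) ^ 2 / 2 + τ)
        * (1 - (1 - t) ^ n) ∧
      FL K o lam (k + j * n) w ≤ c - lam * ((1 - t) * (1 - (1 - t) ^ n) * s ^ 2 / 2) := by
  have ht0 : 0 < t := by rw [ht]; positivity
  induction n with
  | zero =>
    obtain ⟨y, hy, hys⟩ := hy0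
    refine ⟨y, hy, hys.le, ?_, ?_⟩
    · rw [hys]; simp
    · simpa using hc y hy
  | succ n ih =>
    obtain ⟨w, hw, hws, hwd, hwF⟩ := ih
    obtain ⟨y, hy, hys, hyw⟩ := hE w hw hws
    obtain ⟨p, hpC, hpd, hpF⟩ := FL_tp h hK o hlam w y j
    rw [← ht] at hpd hpF
    have hpQ : p ∈ Qs K := hpC _ (midClosed_qs h K) hw hy
    have hps : dist v p ≤ s := by
      have := hpC _ (midClosed_closedBall h v s) (by rwa [mem_closedBall, dist_comm])
        (by rw [mem_closedBall, dist_comm, hys])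
      rwa [mem_closedBall, dist_comm] at this
    have hw0 : 0 ≤ dist v w := dist_nonneg
    have hss : s ^ 2 ≤ 1 := by nlinarith
    set e : ℝ := ε * s ^ 2 with he
    have he0 : 0 ≤ e := by positivity
    have hes : e ^ 2 ≤ s ^ 2 := by
      have : e ≤ s := by
        rw [he]
        nlinarith
      nlinarith
    rw [dist_comm y w] at hyw
    refine ⟨p, hpQ, hps, ?_, ?_⟩
    · have h1 := hpd v
      rw [hys] at h1
      have h2 : t * (1 - t) * (dist v w ^ 2 + s ^ 2 - e * dist v w - τ)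
          ≤ t * (1 - t) * dist w y ^ 2 :=
        mul_le_mul_of_nonneg_left hyw (mul_nonneg ht0.le (by linarith))
      have h3 : dist v p ^ 2 ≤ (1 - t) * dist v w ^ 2 + t * (t * s ^ 2 + e ^ 2 / 2 + τ) := by
        have h4 : e * dist v w ≤ dist v w ^ 2 / 2 + e ^ 2 / 2 := by
          nlinarith [sq_nonneg (e - dist v w)]
        have h5 : t * (1 - t) * (e * dist v w) ≤ t * (1 - t) * (dist v w ^ 2 / 2 + e ^ 2 / 2) :=
          mul_le_mul_of_nonneg_left h4 (mul_nonneg ht0.le (by linarith))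
        have h6 : 0 ≤ t ^ 2 * (e ^ 2 / 2 + τ) := by
          rw [hτ]; positivity
        have h7 : 0 ≤ t * (1 - t) / 2 * dist v w ^ 2 := by
          have : 0 ≤ 1 - t := by linarith
          positivity
        nlinarith
      have h8 : (1 - t) * dist v w ^ 2 ≤ (1 - t) * ((1 - t) ^ n * s ^ 2
          + (t * s ^ 2 + e ^ 2 / 2 + τ) * (1 - (1 - t) ^ n)) :=
        mul_le_mul_of_nonneg_left hwd (by linarith)
      rw [pow_succ (1 - t) n]
      linarith
    · have h1 := hpF (k + j * n)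
      have h2 : FL K o lam (k + j * n) y ≤ c := by
        refine le_trans ?_ (hc y hy)
        exact antitone_nat_of_succ_le (f := fun n => FL K o lam n y)
          (fun n => FL_succ_le hK o lam n y) (Nat.le_add_right k (j * n))
      have h3 : s ^ 2 / 2 ≤ dist w y ^ 2 := by
        have h31 : τ ≤ s ^ 2 / 4 := by rw [hτ]; nlinarith [sq_nonneg s]
        have h32 := sq_nonneg (dist v w - e / 2)
        nlinarith
      have h4 : lam * (t * (1 - t) * (s ^ 2 / 2)) ≤ lam * (t * (1 - t) * dist w y ^ 2) := by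
        have : 0 ≤ 1 - t := by linarith
        gcongr
      have h5 : (1 - t) * FL K o lam (k + j * n) w
          ≤ (1 - t) * (c - lam * ((1 - t) * (1 - (1 - t) ^ n) * s ^ 2 / 2)) :=
        mul_le_mul_of_nonneg_left hwF (by linarith)
      have h6 : t * FL K o lam (k + j * n) y ≤ t * c := mul_le_mul_of_nonneg_left h2 ht0.le
      have e1 : k + j * (n + 1) = k + j * n + j := by ring
      rw [e1, pow_succ (1 - t) n]
      linarith

theorem FL_lip {K : Set X} {o : X} {lam D : ℝ} (hlam : 0 ≤ lam) (k : ℕ) {x y : X}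
    (hx : dist x o ≤ D) (hy : dist y o ≤ D) :
    FL K o lam k x ≤ FL K o lam k y + (1 + 2 * lam * D) * dist x y := by
  have h1 := fL_lip K k x y
  have h2 := dist_triangle x y o
  have h3 : dist x o ^ 2 ≤ dist y o ^ 2 + 2 * D * dist x y := by
    have hx0 : 0 ≤ dist x o := dist_nonneg
    have hy0 : 0 ≤ dist y o := dist_nonneg
    have hxy : 0 ≤ dist x y := dist_nonneg
    rcases le_total (dist x o) (dist y o) with h4 | h4
    · have : dist x o ^ 2 ≤ dist y o ^ 2 := pow_le_pow_left₀ hx0 h4 2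
      have : 0 ≤ 2 * D * dist x y := by
        have : 0 ≤ D := hx0.trans hx
        positivity
      linarith
    · have h5 : (dist x o - dist y o) * (dist x o + dist y o) ≤ dist x y * (2 * D) := by
        apply mul_le_mul (by linarith) (by linarith) (by linarith) hxy
      nlinarith
  have h4 := mul_le_mul_of_nonneg_left h3 hlam
  unfold FL
  nlinarith

theorem step (h : CN X) {K : Set X} (hK : K.Nonempty) (o : X) {lam D : ℝ} (hlam : 0 < lam)
    (hD : 0 ≤ D) (hDQ : ∀ x ∈ Qs K, dist x o ≤ D) {ρ : ℝ} (hρ : 0 < ρ) (hE : HypE K) :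
    ∃ δ > 0, ∃ M : ℕ, ∀ k c, (∀ x ∈ Qs K, FL K o lam k x ≤ c) →
      ∀ x ∈ Qs K, FL K o lam (k + M) x ≤ max (c - δ) (ρ + lam * D ^ 2) := by
  have hL : 0 < 1 + 2 * lam * D := by positivity
  set L : ℝ := 1 + 2 * lam * D with hLdef
  set ε : ℝ := min ρ (min 1 (lam / (48 * L))) with hεdef
  have hε0 : 0 < ε := by
    rw [hεdef]
    refine lt_min hρ (lt_min one_pos ?_)
    positivity
  have hερ : ε ≤ ρ := min_le_left _ _
  have hε1 : ε ≤ 1 := (min_le_right _ _).trans (min_le_left _ _)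
  have hεL : ε ≤ lam / (48 * L) := (min_le_right _ _).trans (min_le_right _ _)
  have hεL' : 48 * L * ε ≤ lam := by
    rw [le_div_iff₀ (by positivity)] at hεL
    linarith
  obtain ⟨σ, hσ0, hσ⟩ := hE ε hε0
  -- choose `j`
  obtain ⟨j, hj⟩ : ∃ j : ℕ, (1 / 2 : ℝ) ^ j < min (1 / 4) (ε ^ 2 * σ ^ 2 / 3) :=
    exists_pow_lt_of_lt_one (lt_min (by norm_num) (by positivity)) (by norm_num)
  set t : ℝ := 1 / 2 ^ j with ht
  have htj : t = (1 / 2 : ℝ) ^ j := by rw [ht, div_pow, one_pow]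
  rw [← htj] at hj
  have ht4 : t ≤ 1 / 4 := (hj.trans_le (min_le_left _ _)).le
  have ht3 : 3 * t ≤ ε ^ 2 * σ ^ 2 := by
    have := (hj.trans_le (min_le_right _ _)).le
    linarith
  have ht0 : 0 < t := by rw [ht]; positivity
  obtain ⟨N, hN⟩ : ∃ N : ℕ, (1 - t) ^ N < t := exists_pow_lt_of_lt_one ht0 (by linarith)
  refine ⟨lam * σ ^ 2 / 16, by positivity, j * N, fun k c hc x hx => ?_⟩
  rcases lt_or_ge (infDist x K) ε with hxK | hxK
  · refine le_trans ?_ (le_max_right _ _)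
    have h1 : FL K o lam (k + j * N) x ≤ FL K o lam 0 x :=
      antitone_nat_of_succ_le (f := fun n => FL K o lam n x)
        (fun n => FL_succ_le hK o lam n x) (Nat.zero_le _)
    have h2 : FL K o lam 0 x = infDist x K + lam * dist x o ^ 2 := rfl
    have h3 : lam * dist x o ^ 2 ≤ lam * D ^ 2 := by
      have := hDQ x hx
      gcongr
    linarith
  · refine le_trans ?_ (le_max_left _ _)
    obtain ⟨v, s, hσs, hs1, hxv, hy0, hw⟩ := hσ x hx hxK
    have hs0 : 0 < s := hσ0.trans_le hσs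
    obtain ⟨w, hwQ, _, hwd, hwF⟩ := greedy h hK o hlam.le hs0 hs1 hε0 hε1 ht ht4
      (τ := t * s ^ 2) rfl hy0 (fun w hwQ hws => hw w hwQ hws _ (by positivity)) hc N
    set q : ℝ := (1 - t) ^ N with hq
    have hq0 : 0 ≤ q := by
      rw [hq]
      exact pow_nonneg (by linarith) _
    have h1 : dist v w ^ 2 ≤ (2 * (ε * s ^ 2)) ^ 2 := by
      have h2 : q * s ^ 2 ≤ t * s ^ 2 := mul_le_mul_of_nonneg_right hN.le (sq_nonneg s)
      have h3 : 3 * t * s ^ 2 ≤ (ε * s ^ 2) ^ 2 := by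
        have h4 : σ ^ 2 ≤ s ^ 2 := pow_le_pow_left₀ hσ0.le hσs 2
        have h5 : ε ^ 2 * σ ^ 2 ≤ ε ^ 2 * s ^ 2 := mul_le_mul_of_nonneg_left h4 (sq_nonneg ε)
        have h6 : 3 * t * s ^ 2 ≤ ε ^ 2 * s ^ 2 * s ^ 2 :=
          mul_le_mul_of_nonneg_right (ht3.trans h5) (sq_nonneg s)
        nlinarith
      have h4 : 0 ≤ (t * s ^ 2 + (ε * s ^ 2) ^ 2 / 2 + t * s ^ 2) * q := by positivity
      nlinarith [sq_nonneg (ε * s ^ 2)]
    have h2 : dist v w ≤ 2 * (ε * s ^ 2) := le_of_sq_le_sq h1 (by positivity)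
    have h3 : dist x w ≤ 3 * (ε * s ^ 2) := by
      have := dist_triangle x v w
      linarith
    have h4 := FL_lip (K := K) hlam.le (k + j * N) (hDQ x hx) (hDQ w hwQ)
    rw [← hLdef] at h4
    have h5 : L * dist x w ≤ lam * s ^ 2 / 16 := by
      have h6 : L * dist x w ≤ L * (3 * (ε * s ^ 2)) := mul_le_mul_of_nonneg_left h3 hL.le
      have h7 : 48 * L * ε * s ^ 2 ≤ lam * s ^ 2 := mul_le_mul_of_nonneg_right hεL' (sq_nonneg s)
      linarith
    have h6 : 1 / 4 ≤ (1 - t) * (1 - q) := by nlinarith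
    have h7 : lam * (s ^ 2 / 8) ≤ lam * ((1 - t) * (1 - q) * s ^ 2 / 2) := by
      apply mul_le_mul_of_nonneg_left _ hlam.le
      have := mul_le_mul_of_nonneg_right h6 (sq_nonneg s)
      linarith
    have h8 : lam * σ ^ 2 ≤ lam * s ^ 2 := by
      have h4 : σ ^ 2 ≤ s ^ 2 := pow_le_pow_left₀ hσ0.le hσs 2
      gcongr
    linarith

theorem engine [CompleteSpace X] (h : CN X) {K : Set X} (hKc : IsCompact K) (hK : K.Nonempty)
    (hE : HypE K) : IsCompact (Qs K) := by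
  obtain ⟨o, ho⟩ := hK
  have hK : K.Nonempty := ⟨o, ho⟩
  obtain ⟨D, hD⟩ := hKc.isBounded.subset_closedBall o
  have hDQ : ∀ x ∈ Qs K, dist x o ≤ D := fun x hx =>
    qs_subset isClosed_closedBall (midClosed_closedBall h o D) hD hx
  have hD0 : 0 ≤ D := dist_nonneg.trans (hDQ o (subset_qs K ho))
  -- uniform approximation
  have happ : ∀ η > 0, ∃ k, ∀ x ∈ Qs K, infDist x (Lv K k) ≤ η := by
    intro η hη
    set lam : ℝ := η / (2 * (D ^ 2 + 1)) with hlam
    have hlam0 : 0 < lam := by positivity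
    have hlamD : lam * D ^ 2 ≤ η / 2 := by
      rw [hlam, div_mul_eq_mul_div, div_le_div_iff₀ (by positivity) (by norm_num)]
      nlinarith
    obtain ⟨δ, hδ, M, hM⟩ := step h hK o hlam0 hD0 hDQ (ρ := η / 2) (by positivity) hE
    have hit : ∀ i : ℕ, ∀ x ∈ Qs K, FL K o lam (M * i) x
        ≤ max (D + lam * D ^ 2 - i * δ) (η / 2 + lam * D ^ 2) := by
      intro i
      induction i with
      | zero =>
        intro x hx
        refine le_trans ?_ (le_max_left _ _)
        have h1 : infDist x K ≤ dist x o := infDist_le_dist_of_mem ho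
        have h2 := hDQ x hx
        have h3 : FL K o lam 0 x = infDist x K + lam * dist x o ^ 2 := rfl
        have h4 : lam * dist x o ^ 2 ≤ lam * D ^ 2 := by gcongr
        rw [Nat.mul_zero, h3]
        push_cast
        linarith
      | succ i ih =>
        intro x hx
        have h1 := hM (M * i) _ ih x hx
        have e1 : M * (i + 1) = M * i + M := by ring
        rw [e1]
        refine h1.trans ?_
        rcases max_cases (D + lam * D ^ 2 - i * δ) (η / 2 + lam * D ^ 2) with h2 | h2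
        · rw [h2.1]
          push_cast
          apply max_le_max _ le_rfl
          linarith
        · rw [h2.1]
          refine max_le ?_ (le_max_right _ _)
          refine le_trans ?_ (le_max_right _ _)
          linarith
    obtain ⟨i, hi⟩ := exists_nat_gt (D / δ)
    refine ⟨M * i, fun x hx => ?_⟩
    have h1 := hit i x hx
    have h2 : D + lam * D ^ 2 - i * δ ≤ η / 2 + lam * D ^ 2 := by
      rw [div_lt_iff₀ hδ] at hi
      linarith
    rw [max_eq_right h2] at h1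
    have h3 : FL K o lam (M * i) x = infDist x (Lv K (M * i)) + lam * dist x o ^ 2 := rfl
    have h4 : 0 ≤ lam * dist x o ^ 2 := by positivity
    linarith
  refine isCompact_iff_totallyBounded_isComplete.2 ⟨?_, (isClosed_qs K).isComplete⟩
  rw [Metric.totallyBounded_iff]
  intro ε hε
  obtain ⟨k, hk⟩ := happ (ε / 4) (by positivity)
  obtain ⟨t, ht, htc⟩ := Metric.totallyBounded_iff.1 (lv_isCompact h hKc k).totallyBounded
    (ε / 2) (by positivity)
  refine ⟨t, ht, fun x hx => ?_⟩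
  obtain ⟨y, hy, hxy⟩ := (infDist_lt_iff (lv_nonempty hK k)).1
    (show infDist x (Lv K k) < ε / 2 by have := hk x hx; linarith)
  have hy' := htc hy
  rw [mem_iUnion₂] at hy' ⊢
  obtain ⟨z, hz, hyz⟩ := hy'
  refine ⟨z, hz, ?_⟩
  rw [mem_ball] at *
  have := dist_triangle x y z
  linarith

end Pool.Agent.Work.MP_c2bb60_gt
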