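import Pool.Agent.Work.MP_c2bb60_gt.Engine

set_option autoImplicit false

open Metric Set Filter Topology

namespace Pool.Agent.Work.MP_c2bb60_gt

variable {X : Type*} [MetricSpace X]

theorem sphere_nonempty [CompleteSpace X] (h : CN X) {K : Set X} {v : X} {s : ℝ}
    (hK : ∀ k ∈ K, s ≤ dist v k) {x : X} (hx : x ∈ Qs K) (hxs : dist v x < s) :
    ∃ y ∈ Qs K, dist v y = s := by
  by_contra hcon
  push Not at hcon
  have h1 := mem_qs_sphere h hK hx hxs
  have h2 : {y | y ∈ Qs K ∧ dist v y = s} = ∅ := by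
    ext y
    simp only [mem_ofPred_eq, mem_empty_iff_false, iff_false, not_and]
    exact fun hy => hcon y hy
  rw [h2, qs_empty] at h1
  exact h1

/-- If a function is midpoint-concave on the ball, its values on the sphere part cannot all exceed
its value at `x`. -/
theorem exists_sphere_lt [CompleteSpace X] (h : CN X) {K : Set X} {v : X} {s : ℝ}
    (hK : ∀ k ∈ K, s ≤ dist v k) {x : X} (hx : x ∈ Qs K) (hxs : dist v x < s)
    (Ψ : X → ℝ) (hΨc : Continuous Ψ)
    (hΨ : ∀ a b m, dist v a ≤ s → dist v b ≤ s → IsMid a b m → (Ψ a + Ψ b) / 2 ≤ Ψ m)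
    {c : ℝ} (hc : Ψ x < c) : ∃ y ∈ Qs K, dist v y = s ∧ Ψ y < c := by
  by_contra hcon
  push Not at hcon
  have h1 := mem_qs_sphere h hK hx hxs
  have h2 : Qs {y | y ∈ Qs K ∧ dist v y = s} ⊆ closedBall v s ∩ {k | c ≤ Ψ k} := by
    apply qs_subset (isClosed_closedBall.inter (isClosed_le continuous_const hΨc))
    · intro a ha b hb m hm
      refine ⟨midClosed_closedBall h v s a ha.1 b hb.1 m hm, ?_⟩
      have h3 := hΨ a b m (by rw [dist_comm]; exact ha.1) (by rw [dist_comm]; exact hb.1) hm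
      have h4 : c ≤ Ψ a := ha.2
      have h5 : c ≤ Ψ b := hb.2
      show c ≤ Ψ m
      linarith
    · rintro y ⟨hy, hys⟩
      refine ⟨?_, hcon y hy hys⟩
      rw [mem_closedBall, dist_comm, hys]
  have h3 : c ≤ Ψ x := (h2 h1).2
  linarith

theorem hull_eq_subset (h : CN X) [CompleteSpace X] (K : Set X) :
    (⋂₀ {C : Set X | IsClosed C ∧ K ⊆ C ∧
          ∀ x ∈ C, ∀ y ∈ C, ∀ γ : ℝ → X, γ 0 = x → γ (dist x y) = y →
            (∀ s ∈ Set.Icc (0:ℝ) (dist x y), ∀ t ∈ Set.Icc (0:ℝ) (dist x y),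
              dist (γ s) (γ t) = |s - t|) →
            ∀ t ∈ Set.Icc (0:ℝ) (dist x y), γ t ∈ C}) ⊆ Qs K := by
  apply sInter_subset_of_mem
  refine ⟨isClosed_qs K, subset_qs K, fun x hx y hy γ h0 h1 hγ t ht => ?_⟩
  have hd : 0 ≤ dist x y := dist_nonneg
  apply mem_of_between h (isClosed_qs K) (midClosed_qs h K) hx hy
  have e1 := hγ 0 ⟨le_rfl, hd⟩ t ht
  have e2 := hγ t ht (dist x y) ⟨hd, le_rfl⟩
  rw [h0, zero_sub, abs_neg, abs_of_nonneg ht.1] at e1
  rw [h1, abs_of_nonpos (by linarith [ht.2])] at e2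
  rw [e1, e2]
  ring

theorem final (h : CN X) [CompleteSpace X] {K : Set X} (hK : IsCompact K)
    (hE : K.Nonempty → HypE K) :
    IsCompact (⋂₀ {C : Set X | IsClosed C ∧ K ⊆ C ∧
          ∀ x ∈ C, ∀ y ∈ C, ∀ γ : ℝ → X, γ 0 = x → γ (dist x y) = y →
            (∀ s ∈ Set.Icc (0:ℝ) (dist x y), ∀ t ∈ Set.Icc (0:ℝ) (dist x y),
              dist (γ s) (γ t) = |s - t|) →
            ∀ t ∈ Set.Icc (0:ℝ) (dist x y), γ t ∈ C}) := by
  have hcl : IsClosed (⋂₀ {C : Set X | IsClosed C ∧ K ⊆ C ∧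
          ∀ x ∈ C, ∀ y ∈ C, ∀ γ : ℝ → X, γ 0 = x → γ (dist x y) = y →
            (∀ s ∈ Set.Icc (0:ℝ) (dist x y), ∀ t ∈ Set.Icc (0:ℝ) (dist x y),
              dist (γ s) (γ t) = |s - t|) →
            ∀ t ∈ Set.Icc (0:ℝ) (dist x y), γ t ∈ C}) :=
    isClosed_sInter fun C hC => hC.1
  rcases K.eq_empty_or_nonempty with h0 | h0
  · have h1 := hull_eq_subset h K
    rw [h0, qs_empty] at h1
    rw [h0, subset_empty_iff.1 h1]
    exact isCompact_empty
  · exact (engine h hK h0 (hE h0)).of_isClosed_subset hcl (hull_eq_subset h K)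

/-- Extendible geodesics. -/
def Ext (X : Type*) [MetricSpace X] : Prop :=
  ∀ x w : X, x ≠ w → ∀ r : ℝ, dist x w ≤ r → ∃ w' : X, dist x w' = r ∧ dist w w' = r - dist x w

/-- Lower curvature bound in `o(r)` form on bounded sets. -/
def LowO (X : Type*) [MetricSpace X] : Prop :=
  ∀ (o : X) (R ε : ℝ), 0 < ε → ∃ δ > 0, ∀ r : ℝ, 0 < r → r ≤ δ → ∀ x y z p : X, ∀ a : ℝ,
    dist z o ≤ R → dist z x ≤ r → dist z y ≤ r → 0 ≤ a → a ≤ 1 → IsPt x y a p →
    (1 - a) * dist z x ^ 2 + a * dist z y ^ 2 - a * (1 - a) * (1 + ε * r) * dist x y ^ 2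
      ≤ dist z p ^ 2

theorem hypE_of_low (h : CN X) [CompleteSpace X] (hext : Ext X) (hlow : LowO X) {K : Set X}
    (hKc : IsCompact K) (hK : K.Nonempty) : HypE K := by
  obtain ⟨o, ho⟩ := hK
  obtain ⟨D, hD⟩ := hKc.isBounded.subset_closedBall o
  have hDQ : ∀ x ∈ Qs K, dist x o ≤ D := fun x hx =>
    qs_subset isClosed_closedBall (midClosed_closedBall h o D) hD hx
  intro ε hε
  obtain ⟨δ, hδ, hlo⟩ := hlow o D (ε / 4) (by positivity)
  set s : ℝ := min (δ / 2) (min (ε / 2) (min (1 / 2) (1 / ε))) with hs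
  have hs0 : 0 < s :=
    lt_min (by positivity) (lt_min (by positivity) (lt_min (by norm_num) (by positivity)))
  have hsδ : s ≤ δ / 2 := min_le_left _ _
  have hsε : s ≤ ε / 2 := (min_le_right _ _).trans (min_le_left _ _)
  have hs1 : s ≤ 1 / 2 := (min_le_right _ _).trans ((min_le_right _ _).trans (min_le_left _ _))
  have hs2 : s ≤ 1 / ε := (min_le_right _ _).trans ((min_le_right _ _).trans (min_le_right _ _))
  refine ⟨s, hs0, fun x hx hxK => ⟨x, s, le_rfl, by linarith, ?_, ?_, ?_⟩⟩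
  · rw [dist_self]; positivity
  · have hKs : ∀ k ∈ K, s ≤ dist x k := fun k hk => by
      have := infDist_le_dist_of_mem (x := x) hk
      linarith
    exact sphere_nonempty h hKs hx (by rw [dist_self]; exact hs0)
  · have hKs : ∀ k ∈ K, s ≤ dist x k := fun k hk => by
      have := infDist_le_dist_of_mem (x := x) hk
      linarith
    intro w hw hws τ hτ
    rcases eq_or_ne x w with rfl | hxw
    · obtain ⟨y, hy, hys⟩ := sphere_nonempty h hKs hx (by rw [dist_self]; exact hs0)
      refine ⟨y, hy, hys, ?_⟩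
      rw [dist_self, dist_comm y x, hys]
      nlinarith
    · obtain ⟨w', hw1, hw2⟩ := hext x w hxw s hws
      set ω : ℝ := ε / 4 * (2 * s) with hω
      have hω0 : 0 ≤ ω := by positivity
      have hr0 : 0 < 2 * s := by positivity
      have hrδ : 2 * s ≤ δ := by linarith
      obtain ⟨y, hy, hys, hyΨ⟩ := exists_sphere_lt h hKs hx (by rw [dist_self]; exact hs0)
        (fun k => (1 - ω) * dist x k ^ 2 - dist w' k ^ 2 + s ^ 2) (by fun_prop) (by
          intro a b m ha hb hm
          have h1 := hm.cn h w'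
          have h2 := hlo (2 * s) hr0 hrδ a b x m (1/2) (hDQ x hx) (by linarith) (by linarith)
            (by norm_num) (by norm_num) ⟨by rw [hm.1]; ring, by rw [hm.2]; ring⟩
          have hω1 : ω ≤ 1 := by
            rw [le_div_iff₀ hε] at hs2
            rw [hω]
            linarith
          rw [← hω] at h2
          have h3 := mul_le_mul_of_nonneg_left h2 (show 0 ≤ 1 - ω by linarith)
          nlinarith [mul_nonneg (sq_nonneg ω) (sq_nonneg (dist a b))]) (c := τ) (by
            rw [dist_self, dist_comm w' x, hw1]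
            nlinarith)
      refine ⟨y, hy, hys, ?_⟩
      rw [hys] at hyΨ
      have h1 := hlo (2 * s) hr0 hrδ x w' y w (dist x w / s) (hDQ y hy)
        (by rw [dist_comm, hys]; linarith)
        (by
          have := dist_triangle y x w'
          rw [dist_comm y x, hys, hw1] at this
          linarith) (by positivity) (by rw [div_le_one hs0]; exact hws)
        ⟨by rw [hw1]; field_simp, by rw [hw1, hw2]; field_simp⟩
      rw [← hω, dist_comm y x, hys, hw1, dist_comm y w'] at h1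
      set a : ℝ := dist x w / s with ha
      have hxw' : dist x w = a * s := by rw [ha]; field_simp
      have ha0 : 0 ≤ a := by positivity
      have ha1 : a ≤ 1 := by rw [ha, div_le_one hs0]; exact hws
      rw [hxw']
      have h2 : a * (2 * s ^ 2 - ω * s ^ 2 - τ) ≤ a * dist w' y ^ 2 :=
        mul_le_mul_of_nonneg_left (by linarith) ha0
      have h3 : ε * s ^ 2 * (a * s) = 2 * ω * a * s ^ 2 := by rw [hω]; ring
      rw [h3]
      nlinarith [mul_nonneg (mul_nonneg hω0 (mul_nonneg ha0 ha0)) (sq_nonneg s)]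

end Pool.Agent.Work.MP_c2bb60_gt
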