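import Pool.Agent.Work.MP_c2bb60_gt.Basic

set_option autoImplicit false

open Metric Set Filter Topology

namespace Pool.Agent.Work.MP_c2bb60_gt

variable {X : Type*} [MetricSpace X]

/-- Iterated midpoint sets. -/
def Lv (K : Set X) : ℕ → Set X
  | 0 => K
  | n + 1 => {m | ∃ a ∈ Lv K n, ∃ b ∈ Lv K n, IsMid a b m}

theorem lv_succ (K : Set X) (n : ℕ) : Lv K n ⊆ Lv K (n + 1) :=
  fun x hx => ⟨x, hx, x, hx, isMid_self x⟩

theorem lv_mono (K : Set X) : Monotone (Lv K) := monotone_nat_of_le_succ (lv_succ K)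

theorem lv_nonempty {K : Set X} (hK : K.Nonempty) (n : ℕ) : (Lv K n).Nonempty :=
  hK.mono (lv_mono K (Nat.zero_le n))

theorem lv_subset_of_midClosed {K C : Set X} (hC : MidClosed C) (hKC : K ⊆ C) (n : ℕ) :
    Lv K n ⊆ C := by
  induction n with
  | zero => exact hKC
  | succ n ih =>
    rintro m ⟨a, ha, b, hb, hm⟩
    exact hC a (ih ha) b (ih hb) m hm

theorem lv_isCompact (h : CN X) {K : Set X} (hK : IsCompact K) (n : ℕ) : IsCompact (Lv K n) := by
  induction n with
  | zero => exact hK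
  | succ n ih =>
    choose μ hμ using fun p : X × X => exists_mid h p.1 p.2
    have hcont : Continuous μ := by
      rw [Metric.continuous_iff]
      intro p ε hε
      refine ⟨ε, hε, fun q hq => ?_⟩
      have h1 := dist_mid_mid h (hμ q) (hμ p)
      rw [Prod.dist_eq] at hq
      have h2 := (le_max_left (dist q.1 p.1) (dist q.2 p.2)).trans_lt hq
      have h3 := (le_max_right (dist q.1 p.1) (dist q.2 p.2)).trans_lt hq
      linarith
    have himg : Lv K (n + 1) = μ '' (Lv K n ×ˢ Lv K n) := by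
      ext m
      constructor
      · rintro ⟨a, ha, b, hb, hm⟩
        exact ⟨(a, b), ⟨ha, hb⟩, mid_unique h (hμ (a, b)) hm⟩
      · rintro ⟨⟨a, b⟩, ⟨ha, hb⟩, rfl⟩
        exact ⟨a, ha, b, hb, hμ (a, b)⟩
    rw [himg]
    exact (ih.prod ih).image hcont

/-- The closed midpoint hull. -/
def Qs (K : Set X) : Set X := closure (⋃ n, Lv K n)

theorem isClosed_qs (K : Set X) : IsClosed (Qs K) := isClosed_closure

theorem lv_subset_qs (K : Set X) (n : ℕ) : Lv K n ⊆ Qs K :=
  (subset_iUnion (Lv K) n).trans subset_closure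

theorem subset_qs (K : Set X) : K ⊆ Qs K := lv_subset_qs K 0

theorem qs_subset {K C : Set X} (hCc : IsClosed C) (hC : MidClosed C) (hKC : K ⊆ C) :
    Qs K ⊆ C :=
  closure_minimal (iUnion_subset fun n => lv_subset_of_midClosed hC hKC n) hCc

theorem midClosed_qs (h : CN X) (K : Set X) : MidClosed (Qs K) := by
  intro a ha b hb m hm
  rw [Qs, Metric.mem_closure_iff] at *
  intro ε hε
  obtain ⟨a', ha', haa⟩ := ha ε hε
  obtain ⟨b', hb', hbb⟩ := hb ε hε
  rw [mem_iUnion] at ha' hb'
  obtain ⟨i, hi⟩ := ha'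
  obtain ⟨j, hj⟩ := hb'
  obtain ⟨m', hm'⟩ := exists_mid h a' b'
  refine ⟨m', mem_iUnion.2 ⟨max i j + 1, a', lv_mono K (le_max_left i j) hi, b',
    lv_mono K (le_max_right i j) hj, hm'⟩, ?_⟩
  have := dist_mid_mid h hm hm'
  linarith

/-- Balls are midpoint closed. -/
theorem midClosed_closedBall (h : CN X) (v : X) (s : ℝ) : MidClosed (closedBall v s) := by
  intro a ha b hb m hm
  rw [mem_closedBall, dist_comm] at *
  have h1 := hm.cn h v
  have hs : 0 ≤ s := dist_nonneg.trans ha
  apply le_of_sq_le_sq _ hs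
  have h2 : dist v a ^ 2 ≤ s ^ 2 := pow_le_pow_left₀ dist_nonneg ha 2
  have h3 : dist v b ^ 2 ≤ s ^ 2 := pow_le_pow_left₀ dist_nonneg hb 2
  nlinarith [sq_nonneg (dist a b)]

theorem MidClosed.inter {C D : Set X} (hC : MidClosed C) (hD : MidClosed D) :
    MidClosed (C ∩ D) :=
  fun a ha b hb m hm => ⟨hC a ha.1 b hb.1 m hm, hD a ha.2 b hb.2 m hm⟩

/-- Localization: if `K` misses the open ball `B(v,s)`, then every point of the hull in that ball
lies in the hull of the part of the hull on the sphere. -/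
theorem mem_qs_sphere [CompleteSpace X] (h : CN X) {K : Set X} {v : X} {s : ℝ}
    (hK : ∀ k ∈ K, s ≤ dist v k) {x : X} (hx : x ∈ Qs K) (hxs : dist v x < s) :
    x ∈ Qs {y | y ∈ Qs K ∧ dist v y = s} := by
  set Y : Set X := {y | y ∈ Qs K ∧ dist v y = s} with hY
  set C : Set X := (Qs K ∩ {y | s ≤ dist v y}) ∪ Qs Y with hC
  have hcl : IsClosed {y : X | s ≤ dist v y} :=
    isClosed_le continuous_const (continuous_const.dist continuous_id)
  have hCc : IsClosed C := ((isClosed_qs K).inter hcl).union (isClosed_qs Y)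
  have hYQ : Qs Y ⊆ Qs K := qs_subset (isClosed_qs K) (midClosed_qs h K) (fun y hy => hy.1)
  have hCQ : C ⊆ Qs K := union_subset inter_subset_left hYQ
  have hCm : MidClosed C := by
    intro a ha b hb m hm
    have hmQ : m ∈ Qs K := midClosed_qs h K a (hCQ ha) b (hCQ hb) m hm
    rcases le_or_gt s (dist v m) with hsm | hsm
    · exact Or.inl ⟨hmQ, hsm⟩
    · right
      -- replace `a` by a point of `Qs Y`
      have key : ∀ c ∈ C, ∃ c' ∈ Qs Y, ∃ t, 0 ≤ t ∧ t ≤ 1 ∧ IsPt c m t c' := by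
        intro c hc
        rcases hc with hc | hc
        · obtain ⟨p, t, ht0, ht1, hp, hps⟩ := exists_crossing h hc.2 hsm.le
          refine ⟨p, subset_qs Y ⟨?_, hps⟩, t, ht0, ht1, hp⟩
          exact mem_of_pt h (isClosed_qs K) (midClosed_qs h K) hc.1 hmQ ht0 ht1 hp
        · exact ⟨c, hc, 0, le_rfl, zero_le_one, by simp [IsPt]⟩
      obtain ⟨a', ha', t, ht0, ht1, hat⟩ := key a ha
      obtain ⟨b', hb', u, hu0, hu1, hbu⟩ := key b hb
      have hd : 0 ≤ dist a b := dist_nonneg
      refine mem_of_between h (isClosed_qs Y) (midClosed_qs h Y) ha' hb' ?_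
      -- `m` is between `a'` and `b'`
      have e1 := hat.1
      have e2 := hat.2
      have e3 := hbu.1
      have e4 := hbu.2
      rw [hm.1] at e1 e2
      rw [dist_comm b m, hm.2] at e3 e4
      rw [dist_comm b' m] at e4
      have e5 := dist_triangle a' m b'
      have e6 := dist_triangle4 a a' b' b
      rw [dist_comm b' b] at e6
      linarith
  have hKC : K ⊆ C := fun k hk => Or.inl ⟨subset_qs K hk, hK k hk⟩
  rcases qs_subset hCc hCm hKC hx with hx' | hx'
  · exact absurd hx'.2 (not_le.2 hxs)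
  · exact hx'

theorem qs_empty : Qs (∅ : Set X) = ∅ := by
  have : Qs (∅ : Set X) ⊆ ∅ := qs_subset isClosed_empty (fun a ha => ha.elim) (subset_refl _)
  exact subset_empty_iff.1 this

/-- Iterated midpoints toward `w`. -/
theorem exists_tp (h : CN X) (w y : X) (j : ℕ) : ∃ p : X,
    (∀ C : Set X, MidClosed C → w ∈ C → y ∈ C → p ∈ C) ∧
    (∀ z : X, dist z p ^ 2 ≤ (1 - 1 / 2 ^ j) * dist z w ^ 2 + 1 / 2 ^ j * dist z y ^ 2
      - 1 / 2 ^ j * (1 - 1 / 2 ^ j) * dist w y ^ 2) ∧
    (∀ F : ℕ → X → ℝ, (∀ k, ∀ x, F (k+1) x ≤ F k x) →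
      (∀ k a b m, IsMid a b m → F (k + 1) m ≤ (F k a + F k b) / 2) → ∀ k,
        F (k + j) p ≤ (1 - 1 / 2 ^ j) * F k w + 1 / 2 ^ j * F k y) := by
  induction j with
  | zero =>
    refine ⟨y, fun C _ _ hy => hy, fun z => by simp, fun F _ _ k => by simp⟩
  | succ j ih =>
    obtain ⟨p, hpC, hpd, hpF⟩ := ih
    obtain ⟨q, hq⟩ := exists_mid h w p
    have hwp : dist w p = 1 / 2 ^ j * dist w y := by
      have h1 := hpd w
      have h2 := hpd y
      have hd : 0 ≤ dist w y := dist_nonneg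
      have ht0 : (0:ℝ) < 1 / 2 ^ j := by positivity
      have ht1 : (1:ℝ) / 2 ^ j ≤ 1 := by
        rw [div_le_one (by positivity)]
        exact one_le_pow₀ (by norm_num)
      set t : ℝ := 1 / 2 ^ j with ht
      rw [dist_self] at h1 h2
      rw [dist_comm y w] at h2
      have h3 : dist w p ≤ t * dist w y := by
        apply le_of_sq_le_sq _ (by positivity); nlinarith
      have h4 : dist y p ≤ (1 - t) * dist w y := by
        apply le_of_sq_le_sq _ (by apply mul_nonneg _ hd; linarith); nlinarith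
      have h5 := dist_triangle w p y
      rw [dist_comm p y] at h5
      linarith
    have e2 : (1:ℝ) / 2 ^ (j+1) = 1 / 2 ^ j / 2 := by rw [pow_succ]; field_simp
    refine ⟨q, fun C hC hw hy => hC w hw p (hpC C hC hw hy) q hq, fun z => ?_,
      fun F hF1 hF2 k => ?_⟩
    · have h1 := hq.cn h z
      have h2 := hpd z
      rw [hwp] at h1
      rw [e2]
      nlinarith
    · have h1 := hF2 (k + j) w p q hq
      have h2 := hpF F hF1 hF2 k
      have h3 : F (k + j) w ≤ F k w :=
        antitone_nat_of_succ_le (f := fun n => F n w) (fun n => hF1 n w) (Nat.le_add_right k j)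
      rw [e2]
      have : k + (j + 1) = k + j + 1 := by ring
      rw [this]
      linarith

end Pool.Agent.Work.MP_c2bb60_gt
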