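import Pool.Agent.Work.MP_c2bb60_gt.Final

set_option autoImplicit false

open Metric Set Filter Topology

namespace Pool.Agent.Work.MP_c2bb60_gt

open Real in
theorem sinh_mul_le {a x : ℝ} (ha0 : 0 ≤ a) (ha1 : a ≤ 1) (hx : 0 ≤ x) :
    sinh (a * x) ≤ a * sinh x := by
  refine hasSum_le (fun n => ?_) (Real.hasSum_sinh (a * x)) ((Real.hasSum_sinh x).mul_left a)
  rw [mul_pow, mul_div_assoc]
  apply mul_le_mul_of_nonneg_right _ (by positivity)
  rw [pow_succ]
  have : a ^ (2 * n) ≤ 1 := pow_le_one₀ ha0 ha1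
  nlinarith

open Real in
theorem sinh_le_mul_cosh {x : ℝ} (hx : 0 ≤ x) : sinh x ≤ x * cosh x := by
  refine hasSum_le (fun n => ?_) (Real.hasSum_sinh x) ((Real.hasSum_cosh x).mul_left x)
  rw [pow_succ, mul_comm, ← mul_div_assoc]
  apply div_le_div_of_nonneg_left (by positivity) (by positivity)
  exact_mod_cast Nat.factorial_le (by omega)

open Real in
theorem cosh_sub_cosh' (x y : ℝ) : cosh (x + y) - cosh (x - y) = 2 * sinh x * sinh y := by
  rw [cosh_add, cosh_sub]; ring

open Real in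
theorem tangent_cosh {u D : ℝ} (hu : 0 ≤ u) (hD : 0 < D) :
    (u ^ 2 - D ^ 2) * (sinh D / (2 * D)) ≤ cosh u - cosh D := by
  have hsD : 0 < sinh D := sinh_pos_iff.2 hD
  rcases le_total D u with h | h
  · set x : ℝ := (u + D) / 2 with hx
    set y : ℝ := (u - D) / 2 with hy
    have hu' : u = x + y := by rw [hx, hy]; ring
    have hD' : D = x - y := by rw [hx, hy]; ring
    have hx0 : 0 < x := by rw [hx]; linarith
    have hy0 : 0 ≤ y := by rw [hy]; linarith
    have h1 : cosh u - cosh D = 2 * sinh x * sinh y := by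
      rw [hu', hD']; exact cosh_sub_cosh' x y
    have h2 : sinh D ≤ D / x * sinh x := by
      have := sinh_mul_le (a := D / x) (x := x) (by positivity)
        (by rw [div_le_one hx0, hx]; linarith) hx0.le
      rwa [div_mul_cancel₀ _ hx0.ne'] at this
    have h3 : y ≤ sinh y := self_le_sinh_iff.2 hy0
    have h4 : x * sinh D / D ≤ sinh x := by
      rw [div_le_iff₀ hD]
      rw [div_mul_eq_mul_div, le_div_iff₀ hx0] at h2
      linarith
    have h5 : (x * sinh D / D) * y ≤ sinh x * sinh y :=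
      mul_le_mul h4 h3 hy0 (sinh_nonneg_iff.2 hx0.le)
    rw [h1]
    have h6 : (u ^ 2 - D ^ 2) * (sinh D / (2 * D)) = 2 * ((x * sinh D / D) * y) := by
      have : u ^ 2 - D ^ 2 = 4 * x * y := by rw [hx, hy]; ring
      rw [this]
      field_simp
      ring
    rw [h6]
    linarith
  · set x : ℝ := (u + D) / 2 with hx
    set y : ℝ := (D - u) / 2 with hy
    have hu' : u = x - y := by rw [hx, hy]; ring
    have hD' : D = x + y := by rw [hx, hy]; ring
    have hx0 : 0 < x := by rw [hx]; linarith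
    have hy0 : 0 ≤ y := by rw [hy]; linarith
    have h1 : cosh D - cosh u = 2 * sinh x * sinh y := by
      rw [hu', hD']; exact cosh_sub_cosh' x y
    have hsx : 0 ≤ sinh x := sinh_nonneg_iff.2 hx0.le
    have hsy : 0 ≤ sinh y := sinh_nonneg_iff.2 hy0
    have h2 : D * (sinh x * sinh y) ≤ x * y * sinh D := by
      have e1 : sinh D = sinh x * cosh y + cosh x * sinh y := by
        have := sinh_add x y
        rw [← hD'] at this
        exact this
      have e2 := mul_le_mul_of_nonneg_left (sinh_le_mul_cosh hy0) (mul_nonneg hx0.le hsx)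
      have e3 := mul_le_mul_of_nonneg_left (sinh_le_mul_cosh hx0.le) (mul_nonneg hy0 hsy)
      have e4 : D * (sinh x * sinh y) = (x + y) * (sinh x * sinh y) := by rw [← hD']
      rw [e1, e4]
      linarith
    have h6 : (u ^ 2 - D ^ 2) * (sinh D / (2 * D)) = - 2 * ((x * y * sinh D) / D) := by
      have : u ^ 2 - D ^ 2 = - 4 * x * y := by rw [hx, hy]; ring
      rw [this]
      field_simp
      ring
    have h7 : sinh x * sinh y ≤ x * y * sinh D / D := by
      rw [le_div_iff₀ hD]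
      linarith
    rw [h6]
    linarith

open Real in
theorem hyp_to_low {a u v l D ρ : ℝ} (ha0 : 0 ≤ a) (ha1 : a ≤ 1) (hu0 : 0 ≤ u) (hv0 : 0 ≤ v)
    (hl0 : 0 < l) (hD0 : 0 ≤ D) (hu : u ≤ ρ) (hv : v ≤ ρ) (hl : l ≤ 2 * ρ) (hρ : ρ ≤ 1 / 2)
    (h : sinh ((1 - a) * l) * cosh u + sinh (a * l) * cosh v ≤ sinh l * cosh D) :
    (1 - a) * u ^ 2 + a * v ^ 2 - a * (1 - a) * (1 + 3 * ρ ^ 2) * l ^ 2 ≤ D ^ 2 := by
  have hρ0 : 0 ≤ ρ := hu0.trans hu
  have hsl : 0 < sinh l := sinh_pos_iff.2 hl0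
  set A : ℝ := sinh ((1 - a) * l) / sinh l with hA
  set B : ℝ := sinh (a * l) / sinh l with hB
  have hA1 : A ≤ 1 - a := by
    rw [hA, div_le_iff₀ hsl]
    exact sinh_mul_le (by linarith) (by linarith) hl0.le
  have hB1 : B ≤ a := by
    rw [hB, div_le_iff₀ hsl]
    exact sinh_mul_le ha0 ha1 hl0.le
  have h1 : A * cosh u + B * cosh v ≤ cosh D := by
    have : A * cosh u + B * cosh v
        = (sinh ((1 - a) * l) * cosh u + sinh (a * l) * cosh v) / sinh l := by
      rw [hA, hB]; ring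
    rw [this, div_le_iff₀ hsl, mul_comm (cosh D)]
    exact h
  have hcu : cosh u ≤ cosh ρ := cosh_le_cosh.2 (by rwa [abs_of_nonneg hu0, abs_of_nonneg hρ0])
  have hcv : cosh v ≤ cosh ρ := cosh_le_cosh.2 (by rwa [abs_of_nonneg hv0, abs_of_nonneg hρ0])
  have h2 : 1 - A - B ≤ a * (1 - a) * l ^ 2 / 2 * cosh (l / 2) ^ 2 := by
    set p : ℝ := (1 - a) * (l / 2) with hp
    set q : ℝ := a * (l / 2) with hq
    have e1 : (1 - a) * l = p + p := by rw [hp]; ring
    have e2 : a * l = q + q := by rw [hq]; ring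
    have e3 : l = (p + q) + (p + q) := by rw [hp, hq]; ring
    have hpq : l / 2 = p + q := by rw [hp, hq]; ring
    have hp0 : 0 ≤ p := mul_nonneg (by linarith) (by linarith)
    have hq0 : 0 ≤ q := mul_nonneg ha0 (by linarith)
    have hs2 : 0 < sinh (l / 2) := sinh_pos_iff.2 (by linarith)
    have e4 : sinh l - sinh ((1 - a) * l) - sinh (a * l)
        = 4 * sinh (l / 2) * (sinh p * sinh q) := by
      have e5 : sinh l = 2 * sinh (p + q) * cosh (p + q) := by
        have := sinh_two_mul (p + q)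
        rw [← this]; congr 1; rw [e3]; ring
      have e6 : sinh ((1 - a) * l) = 2 * sinh p * cosh p := by
        rw [← sinh_two_mul, e1]; congr 1; ring
      have e7 : sinh (a * l) = 2 * sinh q * cosh q := by
        rw [← sinh_two_mul, e2]; congr 1; ring
      rw [e5, e6, e7, hpq, sinh_add, cosh_add]
      have c1 := cosh_sq p
      have c2 := cosh_sq q
      ring_nf
      rw [show cosh p ^ 2 = sinh p ^ 2 + 1 from c1, show cosh q ^ 2 = sinh q ^ 2 + 1 from c2]
      ring
    have e5 : sinh l = 2 * sinh (l / 2) * cosh (l / 2) := by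
      rw [← sinh_two_mul]; congr 1; ring
    have hc1 : 1 ≤ cosh (l / 2) := one_le_cosh _
    have e6 : sinh p ≤ (1 - a) * sinh (l / 2) :=
      sinh_mul_le (by linarith) (by linarith) (by linarith)
    have e7 : sinh q ≤ a * sinh (l / 2) := sinh_mul_le ha0 ha1 (by linarith)
    have e8 : sinh p * sinh q ≤ ((1 - a) * sinh (l / 2)) * (a * sinh (l / 2)) :=
      mul_le_mul e6 e7 (sinh_nonneg_iff.2 hq0) (mul_nonneg (by linarith) hs2.le)
    have e9 : sinh (l / 2) ≤ l / 2 * cosh (l / 2) := sinh_le_mul_cosh (by linarith)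
    have e10 : sinh (l / 2) ^ 2 ≤ (l / 2 * cosh (l / 2)) ^ 2 :=
      pow_le_pow_left₀ hs2.le e9 2
    have haa : 0 ≤ a * (1 - a) := mul_nonneg ha0 (by linarith)
    have e11 : 1 - A - B = (4 * sinh (l / 2) * (sinh p * sinh q)) / sinh l := by
      rw [← e4, hA, hB]; field_simp
    have e12 : 1 - A - B ≤ 2 * (sinh p * sinh q) := by
      rw [e11, div_le_iff₀ hsl, e5]
      have : 0 ≤ sinh p * sinh q := mul_nonneg (sinh_nonneg_iff.2 hp0) (sinh_nonneg_iff.2 hq0)
      have h3 : 0 ≤ sinh (l / 2) * (sinh p * sinh q) := mul_nonneg hs2.le this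
      nlinarith
    have e13 : a * (1 - a) * sinh (l / 2) ^ 2 ≤ a * (1 - a) * (l / 2 * cosh (l / 2)) ^ 2 :=
      mul_le_mul_of_nonneg_left e10 haa
    nlinarith
  have h3 : (1 - a) * (cosh u - cosh D) + a * (cosh v - cosh D)
      ≤ a * (1 - a) * l ^ 2 / 2 * (1 + 3 * ρ ^ 2) := by
    have haa : 0 ≤ a * (1 - a) := mul_nonneg ha0 (by linarith)
    have e1 : (1 - a) * (cosh u - cosh D) + a * (cosh v - cosh D)
        ≤ (1 - A - B) * cosh ρ := by
      have e2 : (1 - a - A) * cosh u ≤ (1 - a - A) * cosh ρ :=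
        mul_le_mul_of_nonneg_left hcu (by linarith)
      have e3 : (a - B) * cosh v ≤ (a - B) * cosh ρ :=
        mul_le_mul_of_nonneg_left hcv (by linarith)
      nlinarith
    have e2 : (1 - A - B) * cosh ρ ≤ a * (1 - a) * l ^ 2 / 2 * cosh (l / 2) ^ 2 * cosh ρ :=
      mul_le_mul_of_nonneg_right h2 (cosh_pos ρ).le
    have e3 : cosh (l / 2) ^ 2 * cosh ρ ≤ 1 + 3 * ρ ^ 2 := by
      have f1 : cosh (l / 2) ≤ exp (ρ ^ 2 / 2) := by
        refine (cosh_le_exp_half_sq _).trans (exp_le_exp.2 ?_)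
        have : (l / 2) ^ 2 ≤ ρ ^ 2 := pow_le_pow_left₀ (by linarith) (by linarith) 2
        linarith
      have f2 : cosh ρ ≤ exp (ρ ^ 2 / 2) := cosh_le_exp_half_sq _
      have f3 : cosh (l / 2) ^ 2 ≤ exp (ρ ^ 2 / 2) ^ 2 :=
        pow_le_pow_left₀ (cosh_pos _).le f1 2
      have f4 : cosh (l / 2) ^ 2 * cosh ρ ≤ exp (ρ ^ 2 / 2) ^ 2 * exp (ρ ^ 2 / 2) :=
        mul_le_mul f3 f2 (cosh_pos _).le (by positivity)
      have f5 : exp (ρ ^ 2 / 2) ^ 2 * exp (ρ ^ 2 / 2) = exp (3 * ρ ^ 2 / 2) := by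
        rw [← exp_nat_mul, ← exp_add]; congr 1; push_cast; ring
      rw [f5] at f4
      have hρ2 : ρ ^ 2 ≤ 1 / 4 := by nlinarith
      have f6 := abs_exp_sub_one_sub_id_le (x := 3 * ρ ^ 2 / 2)
        (by rw [abs_of_nonneg (by positivity)]; linarith)
      have f7 := le_abs_self (exp (3 * ρ ^ 2 / 2) - 1 - 3 * ρ ^ 2 / 2)
      have f8 : (3 * ρ ^ 2 / 2) ^ 2 ≤ 3 * ρ ^ 2 / 2 := by
        have f9 : 0 ≤ 3 * ρ ^ 2 / 2 := by positivity
        have f10 : 3 * ρ ^ 2 / 2 ≤ 1 := by linarith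
        rw [sq]
        exact mul_le_of_le_one_left f9 f10
      linarith
    have e4 : 0 ≤ a * (1 - a) * l ^ 2 / 2 := by positivity
    have e5 := mul_le_mul_of_nonneg_left e3 e4
    linarith
  set E : ℝ := a * (1 - a) * (1 + 3 * ρ ^ 2) * l ^ 2 with hE
  have hE' : a * (1 - a) * l ^ 2 / 2 * (1 + 3 * ρ ^ 2) = E / 2 := by rw [hE]; ring
  rw [hE'] at h3
  have hE0 : 0 ≤ E := by
    have haa : 0 ≤ a * (1 - a) := mul_nonneg ha0 (by linarith)
    rw [hE]; positivity
  rcases eq_or_lt_of_le hD0 with hD | hD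
  · rw [← hD, cosh_zero] at h3
    have key : ∀ w : ℝ, 0 ≤ w → w ^ 2 / 2 ≤ cosh w - 1 := by
      intro w hw
      have e1 := cosh_sub_cosh' (w / 2) (w / 2)
      rw [add_halves, sub_self, cosh_zero] at e1
      have e2 : w / 2 ≤ sinh (w / 2) := self_le_sinh_iff.2 (by linarith)
      have e3 : (w / 2) * (w / 2) ≤ sinh (w / 2) * sinh (w / 2) :=
        mul_le_mul e2 e2 (by linarith) (le_trans (by linarith) e2)
      rw [e1]
      nlinarith
    have k1 := mul_le_mul_of_nonneg_left (key u hu0) (show 0 ≤ 1 - a by linarith)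
    have k2 := mul_le_mul_of_nonneg_left (key v hv0) ha0
    have : 0 ≤ D ^ 2 := sq_nonneg D
    linarith
  · have k1 := mul_le_mul_of_nonneg_left (tangent_cosh hu0 hD) (show 0 ≤ 1 - a by linarith)
    have k2 := mul_le_mul_of_nonneg_left (tangent_cosh hv0 hD) ha0
    set g : ℝ := sinh D / (2 * D) with hg
    have hg2 : 1 / 2 ≤ g := by
      rw [hg, le_div_iff₀ (by positivity)]
      have : D ≤ sinh D := self_le_sinh_iff.2 hD0
      linarith
    have k3 : g * ((1 - a) * u ^ 2 + a * v ^ 2 - D ^ 2) ≤ E / 2 := by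
      nlinarith
    rcases le_total ((1 - a) * u ^ 2 + a * v ^ 2 - D ^ 2) 0 with h0 | h0
    · linarith
    · have := mul_le_mul_of_nonneg_right hg2 h0
      linarith

variable {X : Type*} [MetricSpace X]

/-- A hyperbolic lower curvature bound on bounded sets implies the `o(r)` form. -/
theorem lowO_of_hyp
    (hlow : ∀ (o : X) (R : ℝ), ∃ κ > 0, ∃ δ > 0, ∀ x y z p : X, ∀ a : ℝ, dist z o ≤ R →
      dist z x ≤ δ → dist z y ≤ δ → 0 ≤ a → a ≤ 1 →
      dist x p = a * dist x y → dist p y = (1 - a) * dist x y →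
      Real.sinh (κ * ((1 - a) * dist x y)) * Real.cosh (κ * dist z x)
        + Real.sinh (κ * (a * dist x y)) * Real.cosh (κ * dist z y)
        ≤ Real.sinh (κ * dist x y) * Real.cosh (κ * dist z p)) : LowO X := by
  intro o R ε hε
  obtain ⟨κ, hκ, δ, hδ, hh⟩ := hlow o R
  refine ⟨min δ (min (1 / (2 * κ)) (ε / (3 * κ ^ 2))), lt_min hδ (lt_min (by positivity)
    (by positivity)), fun r hr0 hr x y z p a hz hzx hzy ha0 ha1 hp => ?_⟩
  have hrδ : r ≤ δ := hr.trans (min_le_left _ _)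
  have hrκ : r ≤ 1 / (2 * κ) := hr.trans ((min_le_right _ _).trans (min_le_left _ _))
  have hrε : r ≤ ε / (3 * κ ^ 2) := hr.trans ((min_le_right _ _).trans (min_le_right _ _))
  rcases eq_or_lt_of_le (dist_nonneg (x := x) (y := y)) with hd | hd
  · have h1 : dist x p = 0 := by rw [hp.1, ← hd, mul_zero]
    have h2 : x = y := dist_eq_zero.1 hd.symm
    have h3 : x = p := dist_eq_zero.1 h1
    rw [← h2, ← h3, dist_self]
    apply le_of_eq
    ring
  · have h1 := hh x y z p a hz (hzx.trans hrδ) (hzy.trans hrδ) ha0 ha1 hp.1 hp.2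
    have e1 : κ * ((1 - a) * dist x y) = (1 - a) * (κ * dist x y) := by ring
    have e2 : κ * (a * dist x y) = a * (κ * dist x y) := by ring
    rw [e1, e2] at h1
    have hρ : κ * r ≤ 1 / 2 := by
      rw [le_div_iff₀ (by positivity)] at hrκ
      linarith
    have hxy : dist x y ≤ 2 * r := by
      have := dist_triangle x z y
      rw [dist_comm x z] at this
      linarith
    have h2 := hyp_to_low (ρ := κ * r) ha0 ha1 (by positivity) (by positivity)
      (show 0 < κ * dist x y by positivity) (by positivity)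
      (mul_le_mul_of_nonneg_left hzx hκ.le) (mul_le_mul_of_nonneg_left hzy hκ.le)
      (by have := mul_le_mul_of_nonneg_left hxy hκ.le; linarith) hρ h1
    have h3 : κ ^ 2 * ((1 - a) * dist z x ^ 2 + a * dist z y ^ 2
        - a * (1 - a) * (1 + 3 * (κ * r) ^ 2) * dist x y ^ 2) ≤ κ ^ 2 * dist z p ^ 2 := by
      have e3 : κ ^ 2 * ((1 - a) * dist z x ^ 2 + a * dist z y ^ 2
        - a * (1 - a) * (1 + 3 * (κ * r) ^ 2) * dist x y ^ 2)
        = (1 - a) * (κ * dist z x) ^ 2 + a * (κ * dist z y) ^ 2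
          - a * (1 - a) * (1 + 3 * (κ * r) ^ 2) * (κ * dist x y) ^ 2 := by ring
      rw [e3, ← mul_pow]
      exact h2
    have h4 := le_of_mul_le_mul_left h3 (by positivity)
    refine le_trans ?_ h4
    have h5 : 3 * (κ * r) ^ 2 ≤ ε * r := by
      rw [le_div_iff₀ (by positivity)] at hrε
      have := mul_le_mul_of_nonneg_right hrε hr0.le
      nlinarith
    have h6 : 0 ≤ a * (1 - a) * dist x y ^ 2 :=
      mul_nonneg (mul_nonneg ha0 (by linarith)) (sq_nonneg _)
    have h7 := mul_le_mul_of_nonneg_left h5 h6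
    nlinarith

end Pool.Agent.Work.MP_c2bb60_gt

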